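import Mathlib

namespace Pool.Agent.Results.MP_ef395a_gt.Dom

open Set TopologicalSpace
open scoped Cardinal

/-- large open covers -/
def Large {Z : Type} [TopologicalSpace Z] (U : Set (Set Z)) : Prop :=
  (∀ u ∈ U, IsOpen u) ∧ ⋃₀ U = univ ∧ univ ∉ U ∧ ∀ z, {u ∈ U | z ∈ u}.Infinite

/-- Split(Λ,Λ) -/
def Split (Z : Type) [TopologicalSpace Z] : Prop :=
  ∀ U : Set (Set Z), Large U → ∃ V W : Set (Set Z), Disjoint V W ∧ V ∪ W = U ∧
    (∃ V' ⊆ V, Large V') ∧ ∃ W' ⊆ W, Large W'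

def Dominating (D : Set (ℕ → ℕ)) : Prop :=
  ∀ g : ℕ → ℕ, ∃ f ∈ D, ∀ᶠ n in Filter.atTop, g n ≤ f n

def Reaping (R : Set (Set ℕ)) : Prop :=
  (∀ r ∈ R, r.Infinite) ∧ ∀ A : Set ℕ, ∃ r ∈ R, (r ∩ A).Finite ∨ (r \ A).Finite

/-- the dominating number -/
noncomputable def dNum : Cardinal := sInf {c | ∃ D, Dominating D ∧ #D = c}

/-- the reaping number -/
noncomputable def rNum : Cardinal := sInf {c | ∃ R, Reaping R ∧ #R = c}

theorem large_of {Z : Type} [TopologicalSpace Z] {U V : Set (Set Z)} (hU : Large U) (h : V ⊆ U)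
    (hz : ∀ z, {u ∈ V | z ∈ u}.Infinite) : Large V := by
  refine ⟨fun u hu => hU.1 u (h hu), ?_, fun hu => hU.2.2.1 (h hu), hz⟩
  refine eq_univ_of_forall fun z => ?_
  obtain ⟨u, hu, hzu⟩ := (hz z).nonempty
  exact ⟨u, hu, hzu⟩

section
variable {Y : Type} [TopologicalSpace Y] (f : Y → ℕ → ℕ)

def Uc (m : ℕ) : Set ((ℕ → Bool) × Y) :=
  {p | (∀ i ≤ m, p.1 i = false) ∨ ((∃ i < m, p.1 i = true) ∧
    (p.1 m = true ∨ ∀ i ≤ f p.2 m, p.1 (m + i) = false))}

theorem op1 (i : ℕ) (b : Bool) : IsOpen {p : (ℕ → Bool) × Y | p.1 i = b} :=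
  (isOpen_discrete {b}).preimage (f := fun p : (ℕ → Bool) × Y => p.1 i) (by fun_prop)

theorem op2 (m k : ℕ) : IsOpen {p : (ℕ → Bool) × Y | ∀ i ≤ k, p.1 (m + i) = false} := by
  have : {p : (ℕ → Bool) × Y | ∀ i ≤ k, p.1 (m + i) = false} =
      ⋂ i ∈ Set.Iic k, {p : (ℕ → Bool) × Y | p.1 (m + i) = false} := by
    ext p; simp
  rw [this]
  exact (finite_Iic k).isOpen_biInter fun i _ => op1 _ _

theorem Uc_open (hf : Continuous f) (m : ℕ) : IsOpen (Uc f m) := by
  have a := op2 (Y := Y) 0 m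
  simp only [zero_add] at a
  refine a.union (IsOpen.inter ?_ ((op1 m true).union ?_))
  · have : {p : (ℕ → Bool) × Y | ∃ i < m, p.1 i = true} =
        ⋃ i ∈ Set.Iio m, {p : (ℕ → Bool) × Y | p.1 i = true} := by
      ext p; simp
    change IsOpen {p : (ℕ → Bool) × Y | ∃ i < m, p.1 i = true}
    rw [this]
    exact isOpen_biUnion fun i _ => op1 _ _
  · have : {p : (ℕ → Bool) × Y | ∀ i ≤ f p.2 m, p.1 (m + i) = false} =
        ⋃ k, {p : (ℕ → Bool) × Y | f p.2 m = k} ∩ {p | ∀ i ≤ k, p.1 (m + i) = false} := by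
      ext p; simp
    change IsOpen {p : (ℕ → Bool) × Y | ∀ i ≤ f p.2 m, p.1 (m + i) = false}
    rw [this]
    refine isOpen_iUnion fun k => IsOpen.inter ?_ (op2 m k)
    exact (isOpen_discrete {k}).preimage ((continuous_apply m).comp (hf.comp continuous_snd))

omit [TopologicalSpace Y] in
theorem pt_not (y : Y) (k : ℕ) : ((fun i => decide (i = k)), y) ∉ Uc f k := by
  rintro (h | ⟨⟨i, hi, h⟩, -⟩)
  · simpa using h k le_rfl
  · simp at h; omega

omit [TopologicalSpace Y] in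
theorem Uc_inj (y : Y) : Function.Injective (Uc f) := by
  have key : ∀ m k, m < k → Uc f m ≠ Uc f k := by
    intro m k h e
    apply pt_not f y k
    rw [← e]
    left
    intro i hi
    simp; omega
  intro m k e
  rcases lt_trichotomy m k with h | h | h
  · exact absurd e (key _ _ h)
  · exact h
  · exact absurd e.symm (key _ _ h)

omit [TopologicalSpace Y] in
theorem idx_inf (p : (ℕ → Bool) × Y) : {m | p ∈ Uc f m}.Infinite := by
  by_cases h0 : ∃ i, p.1 i = true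
  · obtain ⟨i, hi⟩ := h0
    refine infinite_of_forall_exists_gt fun a => ?_
    by_cases h1 : ∃ m, a + i < m ∧ p.1 m = true
    · obtain ⟨m, hm, h⟩ := h1
      exact ⟨m, Or.inr ⟨⟨i, by omega, hi⟩, Or.inl h⟩, by omega⟩
    · push Not at h1
      refine ⟨a + i + 1, Or.inr ⟨⟨i, by omega, hi⟩, Or.inr fun j _ => ?_⟩, by omega⟩
      simpa using h1 (a + i + 1 + j) (by omega)
  · push Not at h0
    refine infinite_univ.mono fun m _ => Or.inl fun i _ => by simpa using h0 i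

theorem notSplit (hf : Continuous f) (hd : Dominating (range f)) :
    ¬ Split ((ℕ → Bool) × Y) := by
  classical
  intro h
  obtain ⟨_, ⟨y0, rfl⟩, -⟩ := hd 0
  have hinf : ∀ p, {u ∈ range (Uc f) | p ∈ u}.Infinite := fun p =>
    ((idx_inf f p).image (Uc_inj f y0).injOn).mono (by
      rintro _ ⟨m, hm, rfl⟩; exact ⟨⟨m, rfl⟩, hm⟩)
  have hL : Large (range (Uc f)) := by
    refine ⟨by rintro _ ⟨m, rfl⟩; exact Uc_open f hf m, ?_, ?_, hinf⟩
    · refine eq_univ_of_forall fun z => ?_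
      obtain ⟨u, hu, hzu⟩ := (hinf z).nonempty
      exact ⟨u, hu, hzu⟩
    · rintro ⟨m, hm⟩
      exact pt_not f y0 m (hm ▸ mem_univ _)
  obtain ⟨V, W, hVW, hU, ⟨V', hV', hV⟩, W', hW', hW⟩ := h _ hL
  set A : Set ℕ := {m | Uc f m ∈ V}
  have hA : A.Infinite := by
    intro hfin
    refine hV.2.2.2 (fun _ => false, y0) ((hfin.image (Uc f)).subset ?_)
    rintro u ⟨hu, -⟩
    obtain ⟨m, rfl⟩ : u ∈ range (Uc f) := hU ▸ Or.inl (hV' hu)
    exact ⟨m, hV' hu, rfl⟩
  have hg : ∀ m, ∃ i, m + i ∈ A := fun m => by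
    obtain ⟨k, hk, hmk⟩ := hA.exists_gt m
    exact ⟨k - m, by rwa [Nat.add_sub_cancel' hmk.le]⟩
  choose g hg using hg
  obtain ⟨_, ⟨y, rfl⟩, hy⟩ := hd g
  obtain ⟨N, hN⟩ := Filter.eventually_atTop.1 hy
  refine hW.2.2.2 (fun i => decide (i ∈ A), y)
    (((finite_Iio (N + g 0 + 1)).image (Uc f)).subset ?_)
  rintro u ⟨hu, hp⟩
  obtain ⟨m, rfl⟩ : u ∈ range (Uc f) := hU ▸ Or.inr (hW' hu)
  refine ⟨m, ?_, rfl⟩
  have hm : m ∉ A := fun hm => disjoint_left.1 hVW hm (hW' hu)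
  by_contra hlt
  simp only [mem_Iio, not_lt] at hlt
  rcases hp with hp | ⟨-, hp | hp⟩
  · have := hp (g 0) (by omega)
    have h0 := hg 0
    rw [zero_add] at h0
    simp [h0] at this
  · exact hm (by simpa using hp)
  · have := hp (g m) (hN m (by omega))
    simp [hg m] at this
end

theorem split_small (Y : Type) [TopologicalSpace Y] [SecondCountableTopology Y] [Nonempty Y]
    (h : #Y < rNum) : Split Y := by
  classical
  intro U hU
  have h1 : ∀ b : Set Y, ∃ S ⊆ {u ∈ U | b ⊆ u}, S.Countable ∧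
      (S.Infinite ∨ S = {u ∈ U | b ⊆ u}) := by
    intro b
    by_cases hb : {u ∈ U | b ⊆ u}.Finite
    · exact ⟨_, subset_rfl, hb.countable, Or.inr rfl⟩
    · have hb' : {u ∈ U | b ⊆ u}.Infinite := hb
      refine ⟨range fun n => (hb'.natEmbedding _ n : Set Y), ?_, countable_range _, Or.inl
        (infinite_range_of_injective (Subtype.val_injective.comp (hb'.natEmbedding _).injective))⟩
      rintro _ ⟨n, rfl⟩
      exact (hb'.natEmbedding _ n).2
  choose S hS hSc hSi using h1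
  set U' := ⋃ b ∈ countableBasis Y, S b
  have hc : U'.Countable := (countable_countableBasis Y).biUnion fun b _ => hSc b
  have hsub : U' ⊆ U := iUnion₂_subset fun b _ u hu => (hS b hu).1
  have hinf : ∀ y, {u ∈ U' | y ∈ u}.Infinite := by
    intro y
    by_cases hb : ∃ b ∈ countableBasis Y, y ∈ b ∧ (S b).Infinite
    · obtain ⟨b, hb, hy, hi⟩ := hb
      exact hi.mono fun u hu => ⟨mem_biUnion hb hu, (hS b hu).2 hy⟩
    · push Not at hb
      refine (hU.2.2.2 y).mono fun u hu => ⟨?_, hu.2⟩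
      obtain ⟨b, hb1, hb2, hb3⟩ :=
        (isBasis_countableBasis Y).exists_subset_of_mem_open hu.2 (hU.1 u hu.1)
      refine mem_biUnion hb1 ?_
      rcases hSi b with h | h
      · exact absurd (hb b hb1 hb2) h
      · rw [h]; exact ⟨hu.1, hb3⟩
  have hI : U'.Infinite := (hinf (Classical.arbitrary Y)).mono fun u hu => hu.1
  haveI := hc.to_subtype
  haveI := hI.to_subtype
  obtain ⟨e⟩ : Nonempty (ℕ ≃ U') := nonempty_equiv_of_countable
  set r : Y → Set ℕ := fun y => {n | y ∈ (e n : Set Y)}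
  have einj : Function.Injective fun n => (e n : Set Y) := Subtype.val_injective.comp e.injective
  have hr : ∀ y, (r y).Infinite := by
    intro y hf
    refine hinf y ((hf.image fun n => (e n : Set Y)).subset fun u hu => ?_)
    exact ⟨e.symm ⟨u, hu.1⟩, by simpa [r] using hu.2, by simp⟩
  have hnr : ¬ Reaping (range r) := fun hR =>
    absurd ((csInf_le' (show #(range r) ∈ {c | ∃ R, Reaping R ∧ #R = c} from ⟨_, hR, rfl⟩)).trans
      Cardinal.mk_range_le) (not_le.2 h)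
  simp only [Reaping, not_and, not_forall, not_exists, not_or] at hnr
  obtain ⟨A, hA⟩ := hnr (by rintro _ ⟨y, rfl⟩; exact hr y)
  have hV : (fun n => (e n : Set Y)) '' A ⊆ U := by
    rintro _ ⟨n, -, rfl⟩; exact hsub (e n).2
  refine ⟨(fun n => (e n : Set Y)) '' A, U \ (fun n => (e n : Set Y)) '' A, disjoint_sdiff_right,
    union_diff_cancel hV, ⟨_, subset_rfl, large_of hU hV fun y => ?_⟩,
    _, subset_rfl, large_of hU diff_subset fun y => ?_⟩
  · refine (Set.Infinite.image einj.injOn (hA _ ⟨y, rfl⟩).1).mono ?_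
    rintro _ ⟨n, hn, rfl⟩
    exact ⟨⟨n, hn.2, rfl⟩, hn.1⟩
  · refine (Set.Infinite.image einj.injOn (hA _ ⟨y, rfl⟩).2).mono ?_
    rintro _ ⟨n, hn, rfl⟩
    refine ⟨⟨hsub (e n).2, ?_⟩, hn.1⟩
    rintro ⟨m, hm, hmn⟩
    exact hn.2 (einj hmn ▸ hm)

theorem result :
    (∀ (Y : Type) [TopologicalSpace Y] (f : Y → ℕ → ℕ), Continuous f → Dominating (range f) →
      ¬ Split ((ℕ → Bool) × Y)) ∧
    (dNum < rNum → ¬ ∀ (X Y : Type) [TopologicalSpace X] [TopologicalSpace Y]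
      [SeparableSpace X] [MetrizableSpace X] [SeparableSpace Y] [MetrizableSpace Y],
      CompactSpace X → Split Y → Split (X × Y)) := by
  refine ⟨fun Y _ f hf hd => notSplit f hf hd, fun hlt h => ?_⟩
  have hne : {c | ∃ D, Dominating D ∧ #D = c}.Nonempty :=
    ⟨_, univ, fun g => ⟨g, trivial, Filter.Eventually.of_forall fun _ => le_rfl⟩, rfl⟩
  obtain ⟨D, hD, hc⟩ := csInf_mem hne
  obtain ⟨g, hg, -⟩ := hD 0
  haveI : Nonempty D := ⟨⟨g, hg⟩⟩
  refine notSplit (Y := D) Subtype.val continuous_subtype_val (by simpa using hD)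
    (h (ℕ → Bool) D inferInstance (split_small D ?_))
  rw [hc]; exact hlt

end Pool.Agent.Results.MP_ef395a_gt.Dom
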